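import Pool.Agent.TH101.RG.LPE

set_option autoImplicit false

/-!
# Large least primes modulo all the primes of a cluster

Lower bounds for the least prime in a progression `b (mod p)`, `b` fixed or slowly growing, at the record scale, for
ALL the members `p` of clusters of primes coming from arbitrary admissible tuples `t` (which may depend on `X`).

The coloured Maynard-Tao theorem and the covering sieve in the record windows are those of the starting files
(helper256, helper312, helper362 and teams). What is new here: the numbers `k (n + t_j) + b` with `1 ≤ |k| ≤ H`, for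
all `j` and `b` at once, are covered by one system of residue classes. The medium primes share one class `v₀` chosen
by an averaging argument such that the `v₀ + t_j` have bounded `m/φ(m)`; the multipliers `k` that survive are counted
in residue classes by a fundamental lemma, and the singular weights `Π_i |k (t_j - t_i) + b|/φ` of the forms are
averaged over these survivors (`Pool.Agent.TH101.RG.LPA`, `LPB`, `LPC`, `LPD`, `LPE`).
-/

open Filter

namespace Pool.Agent.Results.MP_5b0a7e_nt.ClustersOfModuli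

/-- The record scale `f(x) = log x (log₂ x)² log₄ x / (log₃ x)²` (iterated natural logarithms). -/
noncomputable def f (x : ℝ) : ℝ :=
  Real.log x * (Real.log (Real.log x)) ^ 2 * Real.log (Real.log (Real.log (Real.log x))) /
    (Real.log (Real.log (Real.log x))) ^ 2

/-- There is `η > 0` and for every `m` there is `K ≥ m` such that the following holds. Let `J` be given and `d`
squarefree. There is `c > 0` such that for all large `X`: let `t_1, …, t_K` be distinct integers of
`[0, (log₂ X)⁴]` such that for every prime `p` the `v + t_j` are prime to `p` for some `v`, let the `h + t_j` be prime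
to `d`, let the `K` indices be coloured with `m` colours, each used at least `K/(2m)` times, let `B` be a finite set
of nonzero integers `b` with `|b| ≤ log X`, and let `H ≥ log X log₂ X` be an integer with
`H Σ_{b ∈ B} |b|/φ(|b|) ≤ c f(X)`. Then for at least `X^(9/10)` integers `n ≡ h (mod d)` of `(X, 3X]` at least `η m`
of the colours contain an index `j` with `n + t_j` prime, and for all `j`, all `b ∈ B` and all integers `k` with
`1 ≤ |k| ≤ H` for which `b` is none of the `k (t_i - t_j)`, the number `k (n + t_j) + b` is not of the form `i q`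
with `1 ≤ |i| ≤ J` and `q` prime. -/
theorem result : ∃ η : ℝ, 0 < η ∧ ∀ m : ℕ, 1 ≤ m → ∃ K : ℕ, m ≤ K ∧
    ∀ (J d : ℕ), Squarefree d → ∃ c : ℝ, 0 < c ∧ ∃ X₀ : ℝ, ∀ X : ℝ, X₀ ≤ X →
    ∀ t : Fin K → ℕ, Function.Injective t → (∀ j, (t j : ℝ) ≤ (Real.log (Real.log X)) ^ 4) →
    (∀ p : ℕ, p.Prime → ∃ v : ℕ, ∀ j, ¬ p ∣ v + t j) →
    ∀ h : ℕ, (∀ j, (h + t j).Coprime d) →
    ∀ col : Fin K → Fin m, (∀ e, K ≤ 2 * m * {j | col j = e}.ncard) →
    ∀ B : Finset ℤ, (∀ b ∈ B, b ≠ 0 ∧ |(b : ℝ)| ≤ Real.log X) →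
    ∀ H : ℕ, Real.log X * Real.log (Real.log X) ≤ H →
    (H : ℝ) * ∑ b ∈ B, (b.natAbs / b.natAbs.totient : ℝ) ≤ c * f X →
      X ^ (9 / 10 : ℝ) ≤ ({n : ℕ | X < n ∧ (n : ℝ) ≤ 3 * X ∧ n ≡ h [MOD d] ∧
        η * m ≤ ({e : Fin m | ∃ j, col j = e ∧ (n + t j).Prime}.ncard : ℝ) ∧
        ∀ j, ∀ b ∈ B, ∀ k : ℤ, 1 ≤ |k| → |k| ≤ H → (∀ i, b ≠ k * (t i - t j)) →
          ∀ i : ℤ, 1 ≤ |i| → |i| ≤ J → ∀ q : ℕ, q.Prime → i * q ≠ k * (n + t j) + b}.ncard : ℝ) := by
  classical
  obtain ⟨η, hη, H0⟩ := Pool.Agent.TH101.RG.cluster_least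
  refine ⟨η, hη, fun m hm => ?_⟩
  obtain ⟨K, hmK, HK⟩ := H0 m hm
  refine ⟨K, hmK, fun J d hd => ?_⟩
  obtain ⟨c, hc, hX⟩ := HK J d hd
  obtain ⟨X₀, hX₀⟩ := eventually_atTop.1 hX
  refine ⟨c, hc, X₀, fun X hXX t htinj htl hadm h hh col hcol B hB H hHl hHw => ?_⟩
  set S := {n : ℕ | X < n ∧ (n : ℝ) ≤ 3 * X ∧ n ≡ h [MOD d] ∧
        η * m ≤ ({e : Fin m | ∃ j, col j = e ∧ (n + t j).Prime}.ncard : ℝ) ∧
        ∀ j, ∀ b ∈ B, ∀ k : ℤ, 1 ≤ |k| → |k| ≤ H → (∀ i, b ≠ k * (t i - t j)) →
          ∀ i : ℤ, 1 ≤ |i| → |i| ≤ J → ∀ q : ℕ, q.Prime → i * q ≠ k * (n + t j) + b} with hS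
  have hfin : S.Finite := by
    apply (Set.finite_Iic ⌊3 * X⌋₊).subset
    intro p hp
    exact Set.mem_Iic.2 (Nat.le_floor hp.2.1)
  by_contra hcon
  push Not at hcon
  rw [Set.ncard_eq_toFinset_card S hfin] at hcon
  obtain ⟨n, hXn, hn3, hnb, hnd, ⟨E, hE1, hE2⟩, hmain⟩ := hX₀ X hXX t htinj htl hadm h hh col
    (fun e => by
      have h1 : {j | col j = e}.ncard = Pool.Agent.H362R2.RQ.fib col e := by
        rw [Set.ncard_eq_toFinset_card']
        unfold Pool.Agent.H362R2.RQ.fib
        congr 1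
        ext j
        simp
      rw [← h1]
      exact hcol e) B hB H hHl hHw hfin.toFinset hcon.le
  apply hnb
  rw [Set.Finite.mem_toFinset]
  refine ⟨hXn, hn3, hnd, hE1.trans ?_, hmain⟩
  have h1 : (E : Set (Fin m)) ⊆ {e : Fin m | ∃ j, col j = e ∧ (n + t j).Prime} := fun e he => hE2 e he
  have h2 := Set.ncard_le_ncard h1 (Set.toFinite _)
  rw [Set.ncard_coe_finset] at h2
  exact_mod_cast h2

end Pool.Agent.Results.MP_5b0a7e_nt.ClustersOfModuli
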