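import Pool.Agent.TH464.PO.ResBase3

set_option autoImplicit false

/-!
# The first almost primes of the residue classes modulo `q`: their exact places

Fix a modulus `q ≤ X ^ D`, and let the class `a` vary. Let `t` be good for `a` if `q t + a` has at
most `(D + 1) r` prime factors, all larger than `X ^ (1 / r)`. Let `V` and `W` be the products of
`1 - 1 / p` over the primes `p ≤ X ^ (1 / r)` which do not, and do, divide `q`; so `Y W` is the
number of the `a` prime to `q` in an interval of length `Y`. For a finite set `B` let `V_B` be the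
product of `1 - ν(p) / p` over the primes `p ≤ X ^ (1 / r)` not dividing `q`, `ν(p)` the number of
the residues mod `p` of the elements of `B`. Given `θ > 0`, a number `s`, a size `x` and an
accuracy `ε`, for all `r ≥ r0` and all large `X`, for EVERY `q ≤ X ^ D`, in ALL intervals `(Z, Z +
Y]` of classes inside `[0, X ^ (D + 1)]` of length `Y ≥ X ^ θ` (for instance `Z = 0`, `Y = q`: all
reduced classes) and for ALL `d_0, ..., d_(s-1) ≥ 1` with sum `L ≤ x / V`: the number of the `a`
in `(Z, Z + Y]` prime to `q` for which the first `s` good `t ≥ 1` are EXACTLY `d_0, d_0 + d_1,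
..., L` is `Y W V_B e ^ (-L V)`, up to `ε Y W V_B`, where `B` is the set of these places. For `s =
1` this is the asymptotic number `Y W V e ^ (-d V)` of the classes whose least almost prime beyond
`q` is exactly `q d + a`, for every `d ≤ x / V`.
-/

namespace Pool.Agent.Results.MP_5b0a7e_nt.ExactPlaces

open Finset Filter

/-- `N` has at most `B` prime factors (with multiplicity), all of them larger than `z`. -/
def AlmostPrime (B : ℕ) (z : ℝ) (N : ℕ) : Prop :=
  N.primeFactorsList.length ≤ B ∧ ∀ p : ℕ, p.Prime → p ∣ N → z < (p : ℝ)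

/-- `t` is good for the class `a`: `q t + a` has at most `(D + 1) r` prime factors, all larger than
`X ^ (1 / r)`. -/
def Good (D r X q a t : ℕ) : Prop :=
  AlmostPrime ((D + 1) * r) ((X : ℝ) ^ (1 / (r : ℝ))) (q * t + a)

/-- The sieve density of a class: the product of `1 - 1 / p` over the primes `p ≤ X ^ (1 / r)`
not dividing `q`. -/
noncomputable def V (r X q : ℕ) : ℝ :=
  ∏ p ∈ (Finset.range (⌊(X : ℝ) ^ (1 / (r : ℝ))⌋₊ + 1)).filter (fun p => p.Prime ∧ ¬ p ∣ q),
    (1 - 1 / (p : ℝ))

/-- The share of the classes: the product of `1 - 1 / p` over the primes `p ≤ X ^ (1 / r)` dividing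
`q`. -/
noncomputable def W (r X q : ℕ) : ℝ :=
  ∏ p ∈ (Finset.range (⌊(X : ℝ) ^ (1 / (r : ℝ))⌋₊ + 1)).filter (fun p => p.Prime ∧ p ∣ q),
    (1 - 1 / (p : ℝ))

/-- The sieve density of the pattern `B`: the product of `1 - ν(p) / p` over the primes `p ≤ X ^ (1 / r)`
not dividing `q`, where `ν(p)` is the number of the residues mod `p` of the elements of `B`. -/
noncomputable def VB (r X q : ℕ) (B : Finset ℕ) : ℝ :=
  ∏ p ∈ (Finset.range (⌊(X : ℝ) ^ (1 / (r : ℝ))⌋₊ + 1)).filter (fun p => p.Prime ∧ ¬ p ∣ q),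
    (1 - ((B.image (fun h => h % p)).card : ℝ) / p)

/-- The next good `t` after `b`. -/
noncomputable def next (D r X q a : ℕ) (b : ℕ) : ℕ :=
  sInf {t | b < t ∧ Good D r X q a t}

/-- The `j`-th waiting time: the distance between the `j`-th and the `(j + 1)`-st good `t ≥ 1`, where
the `0`-th is `0` by convention. -/
noncomputable def wait (D r X q a j : ℕ) : ℕ :=
  (next D r X q a)^[j + 1] 0 - (next D r X q a)^[j] 0

/-- The place of the `i`-th good `t` for the waiting times `d 0, d 1, …`: `d 0 + ... + d (i - 1)`. -/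
def pos {s : ℕ} (d : Fin s → ℕ) (i : ℕ) : ℕ :=
  ∑ k ∈ Finset.range i, if h : k < s then d ⟨k, h⟩ else 0

/-- The set of the places of the first `s` good `t`. -/
def places {s : ℕ} (d : Fin s → ℕ) : Finset ℕ :=
  (Finset.Icc 1 s).image (pos d)

open Pool.Agent.TH464.PO

open Classical in
/-- **The exact places of the first `s` almost primes of the residue classes.** -/
theorem result (D : ℕ) (θ : ℝ) (hθ : 0 < θ) (s : ℕ) (x ε : ℝ) (hε : 0 < ε) :
    ∃ r0 : ℕ, ∀ r : ℕ, r0 ≤ r → ∀ᶠ X : ℕ in atTop, ∀ q : ℕ, 1 ≤ q → q ≤ X ^ D →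
      ∀ Z Y : ℕ, (X : ℝ) ^ θ ≤ Y → Z + Y ≤ X ^ (D + 1) →
      ∀ d : Fin s → ℕ, (∀ j, 1 ≤ d j) → pos d s * V r X q ≤ x →
        |(((Finset.Ioc Z (Z + Y)).filter (fun a => Nat.Coprime a q ∧
            ∀ j : Fin s, wait D r X q a j = d j)).card : ℝ) -
          Y * (W r X q * VB r X q (places d)) * Real.exp (-(pos d s * V r X q))| ≤
            ε * (Y * (W r X q * VB r X q (places d))) := by
  obtain ⟨r0, h⟩ := res_first D θ hθ s x ε hε
  refine ⟨r0, fun r hr => ?_⟩
  filter_upwards [h r hr] with X hX q hq hqX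
  exact hX q hq hqX (Good D r X q) (V r X q) (W r X q) (VB r X q) (fun _ _ => Iff.rfl) (V_Qo q _)
    (Wq_form q _) (fun B => V_QoB q B _)

end Pool.Agent.Results.MP_5b0a7e_nt.ExactPlaces
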